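import Pool.Agent.H315R2.EB.Stubs

set_option autoImplicit false

/-!
# The lattice complex is a building of type `A~_n` (assembly, task BLD)
-/

namespace Pool.Agent.H315R2.EB

open Module
open scoped Pointwise

namespace BLDh

universe u v w

/-- Composition of isomorphisms of complexes. -/
def comp {V : Type u} {V' : Type v} {V'' : Type w} {Δ : PreAbstractSimplicialComplex V}
    {Δ' : PreAbstractSimplicialComplex V'} {Δ'' : PreAbstractSimplicialComplex V''}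
    (φ : CIso Δ Δ') (ψ : CIso Δ' Δ'') : CIso Δ Δ'' where
  toEquiv := φ.toEquiv.trans ψ.toEquiv
  faces_iff := by
    intro s
    have h1 : s.map (φ.toEquiv.trans ψ.toEquiv).toEmbedding =
        (s.map φ.toEquiv.toEmbedding).map ψ.toEquiv.toEmbedding := by
      rw [Finset.map_map]
      rfl
    rw [h1, ψ.faces_iff, φ.faces_iff]

section

variable {O K V : Type} [CommRing O] [IsDomain O] [IsDiscreteValuationRing O]
  [Field K] [Algebra O K] [IsFractionRing O K] [AddCommGroup V] [Module K V] [Module O V]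
  [IsScalarTower O K V] [FiniteDimensional K V]

theorem lam_reindex {p : Kˣ} {m : ℕ} {b B : Basis (Fin m) K V} {τ : Equiv.Perm (Fin m)}
    {c : Fin m → ℤ} (h : ∀ i, B i = p ^ c i • b (τ i)) (a : Fin m → ℤ) :
    Lam O p B a = Lam O p b (fun j => a (τ.symm j) + c (τ.symm j)) := by
  unfold Lam
  congr 1
  ext x
  simp only [Set.mem_range]
  constructor
  · rintro ⟨i, rfl⟩
    refine ⟨τ i, ?_⟩
    rw [Equiv.symm_apply_apply, h i, zpow_add, mul_smul]
  · rintro ⟨j, rfl⟩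
    refine ⟨τ.symm j, ?_⟩
    rw [h, Equiv.apply_symm_apply, zpow_add, mul_smul]

theorem apt_eq {p : Kˣ} {m : ℕ} {b B : Basis (Fin m) K V} {τ : Equiv.Perm (Fin m)}
    {c : Fin m → ℤ} (h : ∀ i, B i = p ^ c i • b (τ i)) : apt O p b = apt O p B := by
  ext x
  constructor
  · rintro ⟨L, hL, a, ha⟩
    refine ⟨L, hL, fun i => a (τ i) - c i, ?_⟩
    rw [lam_reindex h, ha]
    congr 1
    funext j
    rw [Equiv.apply_symm_apply]
    ring
  · rintro ⟨L, hL, a, ha⟩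
    exact ⟨L, hL, _, ha.trans (lam_reindex h a)⟩

theorem key (hAPC : St_APC) (hADB : St_ADB) (hRIG : St_RIG) (hTRA : St_TRA) (hHOM : St_HOM)
    (hLAM : St_LAM) {p : Kˣ} (hp : IsUnif O p) {m : ℕ} (hm : 0 < m) (hf : finrank K V = m)
    {L : ℤ → Submodule O V} {b b' : Basis (Fin m) K V} (hL : IsChamber O p m L)
    (h : ∀ k, ∃ a, L k = Lam O p b a) (h' : ∀ k, ∃ a, L k = Lam O p b' a) :
    ∃ φ : CIso (full (bt O K V) (apt O p b)) (full (bt O K V) (apt O p b')),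
      ∀ x : apt O p b, x.1 ∈ apt O p b' → (φ.toEquiv x).1 = x.1 := by
  obtain ⟨e, he, τ, c, hec⟩ := hAPC O K V p hp m hm hf L b hL h
  obtain ⟨e', he', τ', c', hec'⟩ := hAPC O K V p hp m hm hf L b' hL h'
  obtain ⟨B, hB, hBL⟩ := hADB O K V p hp m hm hf L e hL he
  obtain ⟨B', hB', hBL'⟩ := hADB O K V p hp m hm hf L e' hL he'
  have hA : apt O p b = apt O p B := apt_eq (fun i => by rw [hB i, hec i])
  have hA' : apt O p b' = apt O p B' := apt_eq (fun i => by rw [hB' i, hec' i])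
  rw [hA, hA']
  obtain ⟨φ, hφ⟩ := hTRA O K V p hp (Fin m) B B'
  obtain ⟨-, hcls, -, -⟩ := hHOM O K V p hp
  obtain ⟨-, -, -, hsm⟩ := hLAM O K V p hp (Fin m) B
  obtain ⟨hlat', -, -, hsm'⟩ := hLAM O K V p hp (Fin m) B'
  refine ⟨φ, ?_⟩
  intro x hx
  obtain ⟨l, hl, a, ha⟩ := x.2
  obtain ⟨l', hl', a', ha'⟩ := hx
  obtain ⟨k, hk⟩ := (hcls l l').1 (hl.trans hl'.symm)
  have h1 : Lam O p B (fun i => a i + k) = Lam O p B' a' := by
    rw [← hsm, ← ha, ← hk, ha']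
  have h2 := hRIG O K V p hp m hm L e e' B B' he he' hB hB' hBL hBL' _ _ h1
  have h3 : cls (⟨Lam O p B' a, hlat' a⟩ : Lat O K V) = cls l' := by
    rw [hcls]
    refine ⟨k, ?_⟩
    change l'.1 = p ^ k • Lam O p B' a
    rw [hsm', ha', ← h2]
  rw [hφ x l ⟨Lam O p B' a, hlat' a⟩ a hl ha rfl, h3, hl']

end

end BLDh

/-- BLD -/
theorem BLD_proof (hCOX : St_COX) (hEXT : St_EXT) (hEXA : St_EXA) (hCOM : St_COM)
    (hAPC : St_APC) (hADB : St_ADB) (hRIG : St_RIG) (hTRA : St_TRA) (hHOM : St_HOM)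
    (hLAM : St_LAM) : St_BLD := by
  intro O K V _ _ _ _ _ _ _ _ _ _ _ p hp n hn
  have hm : 0 < n + 1 := Nat.succ_pos n
  have hmemapt : ∀ {b : Basis (Fin (n + 1)) K V} {L : ℤ → Submodule O V} {s : Finset (Vert O K V)},
      (∀ k, ∃ a, L k = Lam O p b a) → (∀ x ∈ s, ∃ l : Lat O K V, cls l = x ∧ ∃ k, l.1 = L k) →
      (s : Set (Vert O K V)) ⊆ apt O p b := by
    intro b L s h1 h2 x hx
    obtain ⟨l, hl, k, hk⟩ := h2 x (Finset.mem_coe.1 hx)
    obtain ⟨a, ha⟩ := h1 k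
    exact ⟨l, hl, a, hk.trans ha⟩
  refine ⟨?_, ?_, ?_, ?_⟩
  · intro v
    obtain ⟨-, hcls, hle, -⟩ := hHOM O K V p hp
    refine ⟨Finset.singleton_nonempty v, ?_⟩
    intro L L' hL hL'
    rw [Finset.mem_singleton] at hL hL'
    obtain ⟨k, hk⟩ := (hcls L L').1 (hL.trans hL'.symm)
    rcases le_total 0 k with h | h
    · right
      rw [hk]
      exact hle L k h
    · left
      have h1 : L.1 = p ^ (-k) • L'.1 := by
        rw [hk, smul_smul, ← zpow_add, neg_add_cancel, zpow_zero, one_smul]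
      rw [h1]
      exact hle L' (-k) (by omega)
  · rintro A ⟨b, rfl⟩
    exact hCOX O K V p hp n b
  · intro s hs t ht
    obtain ⟨L, hL, hLs⟩ := hEXT O K V p hp (n + 1) hm hn s hs
    obtain ⟨M, hM, hMt⟩ := hEXT O K V p hp (n + 1) hm hn t ht
    obtain ⟨b, hb1, hb2⟩ := hCOM O K V p hp (n + 1) hm hn L M hL hM
    exact ⟨apt O p b, ⟨b, rfl⟩, hmemapt hb1 hLs, hmemapt hb2 hMt⟩
  · rintro A ⟨b, rfl⟩ A' ⟨b', rfl⟩ s hs t ht hsA htA
    obtain ⟨L, hL, hLb, hLs⟩ := hEXA O K V p hp (n + 1) hm hn b s hs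
      (hsA.trans Set.inter_subset_left)
    obtain ⟨M, hM, hMb', hMt⟩ := hEXA O K V p hp (n + 1) hm hn b' t ht
      (htA.trans Set.inter_subset_right)
    obtain ⟨c, hc1, hc2⟩ := hCOM O K V p hp (n + 1) hm hn L M hL hM
    obtain ⟨φ, hφ⟩ := BLDh.key hAPC hADB hRIG hTRA hHOM hLAM hp hm hn hL hLb hc1
    obtain ⟨ψ, hψ⟩ := BLDh.key hAPC hADB hRIG hTRA hHOM hLAM hp hm hn hM hc2 hMb'
    refine ⟨BLDh.comp φ ψ, ?_⟩
    intro x hx
    have hxc : x.1 ∈ apt O p c := by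
      rcases hx with hx | hx
      · exact hmemapt hc1 hLs (Finset.mem_coe.2 hx)
      · exact hmemapt hc2 hMt (Finset.mem_coe.2 hx)
    have hxb' : x.1 ∈ apt O p b' := by
      rcases hx with hx | hx
      · exact (hsA (Finset.mem_coe.2 hx)).2
      · exact (htA (Finset.mem_coe.2 hx)).2
    have h1 : (φ.toEquiv x).1 = x.1 := hφ x hxc
    have h2 : (ψ.toEquiv (φ.toEquiv x)).1 = (φ.toEquiv x).1 := hψ _ (by rw [h1]; exact hxb')
    change (ψ.toEquiv (φ.toEquiv x)).1 = x.1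
    rw [h2, h1]

end Pool.Agent.H315R2.EB
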